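import Pool.Agent.Hhelper98.QuasiWalk.MixingProof

/-!
For every irrational `α` (Diophantine or Liouville) and every symmetric environment `p` of class
`C^1`, every stationary measure of the chain `X_t = x + Z_t α` on the circle is mixing.
-/

open MeasureTheory Pool.Agent.Hhelper98.QuasiWalk

namespace Pool.Agent.Results.MP_8d4b21_pr.Mixing

/-- Let `α` be irrational and let `p : 𝕋 → (0,1)` be of class `C^1` (as a `1`-periodic function on
the line) with `∫ log p = ∫ log (1 - p)`. Then for every stationary probability measure `ν` of the
chain on the circle (ergodic or not), the stationary chain with initial law `ν` is mixing for the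
time shift on path space. -/
theorem result (α : ℝ) (hα : Irrational α) (p : C(UnitAddCircle, Set.Ioo (0 : ℝ) 1))
    (hp : ContDiff ℝ 1 fun x : ℝ => ((p (x : UnitAddCircle) : Set.Ioo (0 : ℝ) 1) : ℝ))
    (hsym : IsSymmetric p) (ν : Measure UnitAddCircle) (hν : IsStationary α p ν) :
    IsMixing (chainLaw α p ν) := by
  have := hν.1
  exact mixing hα hp (balance hα hsym hν)

end Pool.Agent.Results.MP_8d4b21_pr.Mixing
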