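import Pool.Agent.Hhelper98.QuasiWalk.Existence

/-!
For every irrational `α` (Diophantine or Liouville) and every symmetric environment `p` of class
`C^1`, the chain `X_t = x + Z_t α` on the circle has exactly one stationary probability measure.
-/

open MeasureTheory Pool.Agent.Hhelper98.QuasiWalk

namespace Pool.Agent.Results.MP_8d4b21_pr.Uniqueness

/-- Let `α` be irrational and let `p : 𝕋 → (0,1)` be of class `C^1` (as a `1`-periodic function on
the line) with `∫ log p = ∫ log (1 - p)`. Then the chain on the circle which jumps from `y` to
`y + α` with probability `p y` and to `y - α` with probability `1 - p y` has exactly one stationary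
probability measure. -/
theorem result (α : ℝ) (hα : Irrational α) (p : C(UnitAddCircle, Set.Ioo (0 : ℝ) 1))
    (hp : ContDiff ℝ 1 fun x : ℝ => ((p (x : UnitAddCircle) : Set.Ioo (0 : ℝ) 1) : ℝ))
    (hsym : IsSymmetric p) : ∃! ν : Measure UnitAddCircle, IsStationary α p ν := by
  obtain ⟨ν, hν⟩ := exists_stationary α p
  exact ⟨ν, hν, fun μ hμ => stationary_unique hα hp hsym hμ hν⟩

end Pool.Agent.Results.MP_8d4b21_pr.Uniqueness
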